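import Pool.Agent.J4H20.TR.Stm

/-!
# Project TR2, piece (T2)
-/

set_option autoImplicit false

namespace Pool.Agent.J4H98.TR

open Pool.Agent.J4H20.TR
open scoped NumberTheorySymbols

lemma jac (d : ℕ) (hd : 0 < d) (q : ℕ) (hq : 4 * d ∣ q + 1) : J((d : ℤ) | q) = 1 := by
  obtain ⟨t, ht⟩ := hq
  have ht0 : 0 < t := by
    rcases Nat.eq_zero_or_pos t with h | h
    · subst h
      omega
    · exact h
  obtain ⟨u, rfl⟩ : ∃ u, t = u + 1 := ⟨t - 1, by omega⟩
  have hq' : q = 4 * d * u + (4 * d - 1) := by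
    have : 4 * d * (u + 1) = 4 * d * u + 4 * d := by ring
    omega
  have hodd : Odd q := by
    rw [Nat.odd_iff, hq']
    have : 4 * d * u = 2 * (2 * d * u) := by ring
    omega
  have hmod : q % (4 * d) = 4 * d - 1 := by
    rw [hq', Nat.mul_add_mod]
    exact Nat.mod_eq_of_lt (by omega)
  rw [jacobiSym.mod_right _ hodd, Int.natAbs_natCast, hmod]
  have hb : Odd (4 * d - 1) := by
    rw [Nat.odd_iff]
    omega
  have h4 : J((4 * d : ℤ) | 4 * d - 1) = 1 := by
    have e : ((4 * d : ℤ)) % ((4 * d - 1 : ℕ) : ℤ) = (1 : ℤ) % ((4 * d - 1 : ℕ) : ℤ) := by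
      have : (4 * d : ℤ) = 1 + ((4 * d - 1 : ℕ) : ℤ) := by
        rw [Nat.cast_sub (by omega)]
        push_cast
        ring
      rw [this]
      simp
    rw [jacobiSym.mod_left' e, jacobiSym.one_left]
  have h2 : J((4 : ℤ) | 4 * d - 1) = 1 := by
    have e : (4 : ℤ) = 2 * 2 := by norm_num
    have hc : J((2 : ℤ) | 4 * d - 1) = 1 ∨ J((2 : ℤ) | 4 * d - 1) = -1 := by
      apply jacobiSym.eq_one_or_neg_one
      have : Nat.Coprime 2 (4 * d - 1) := (Nat.coprime_two_left).2 hb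
      simpa [Int.gcd] using this
    rw [e, jacobiSym.mul_left]
    rcases hc with h | h <;> rw [h] <;> norm_num
  rw [jacobiSym.mul_left, h2, one_mul] at h4
  exact h4

theorem t_T2 : S_T2 := by
  intro k a x hx B
  obtain ⟨m, hm⟩ : ∃ m : ℕ, m = ∏ j, (x - a j).toNat := ⟨_, rfl⟩
  have hpos : ∀ j, 0 < (x - a j).toNat := fun j => by
    have := hx j
    omega
  have hm0 : 0 < m := by
    rw [hm]
    exact Finset.prod_pos fun j _ => hpos j
  have : NeZero (4 * m) := ⟨by omega⟩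
  obtain ⟨q, hqB, hqp, hq⟩ := Nat.forall_exists_prime_gt_and_eq_mod (q := 4 * m) (a := -1) (isUnit_one.neg) B
  have hdvd : 4 * m ∣ q + 1 := by
    rw [← ZMod.natCast_eq_zero_iff]
    push_cast
    rw [hq]
    ring
  refine ⟨q, hqp, hqB, ?_, fun j => ?_⟩
  · have h4 : 4 ∣ q + 1 := (Dvd.intro _ rfl).trans hdvd
    omega
  · have : Fact q.Prime := ⟨hqp⟩
    have hj : (x - a j).toNat ∣ m := by
      rw [hm]
      exact Finset.dvd_prod_of_mem _ (Finset.mem_univ j)
    have h1 := jac _ (hpos j) q ((mul_dvd_mul_left 4 hj).trans hdvd)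
    have e : (((x - a j).toNat : ℕ) : ℤ) = x - a j := Int.toNat_of_nonneg (by have := hx j; omega)
    rw [e, ← jacobiSym.legendreSym.to_jacobiSym] at h1
    have hne : ((x - a j : ℤ) : ZMod q) ≠ 0 := by
      intro h
      rw [(legendreSym.eq_zero_iff q _).2 h] at h1
      norm_num at h1
    exact (legendreSym.eq_one_iff q hne).1 h1

end Pool.Agent.J4H98.TR
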